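import Mathlib

namespace Pool.Agent.Results.MP_87d29b_co.Counter

open Polynomial

variable {V : Type} [Fintype V] [DecidableEq V]

/-- Eigenvalues of the adjacency matrix, with multiplicity. -/
noncomputable def eig (G : SimpleGraph V) [DecidableRel G.Adj] : Multiset ℝ :=
  (G.adjMatrix ℝ).charpoly.roots

/-- `φ(μ) = ∏_{ν ≠ μ} (μ - ν)` over the distinct eigenvalues. -/
noncomputable def phi (G : SimpleGraph V) [DecidableRel G.Adj] (μ : ℝ) : ℝ :=
  ∏ ν ∈ (eig G).toFinset.erase μ, (μ - ν)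

/-- `p_d(λ₀)` for largest eigenvalue `λ₀ = k`. -/
noncomputable def pd (G : SimpleGraph V) [DecidableRel G.Adj] (k : ℝ) : ℝ :=
  Fintype.card V * (∑ μ ∈ (eig G).toFinset, phi G k ^ 2 / ((eig G).count μ * phi G μ ^ 2))⁻¹

def WalkRegular (G : SimpleGraph V) [DecidableRel G.Adj] : Prop :=
  ∀ (l : ℕ) (x y : V), Fintype.card {p : G.Walk x x | p.length = l} =
    Fintype.card {p : G.Walk y y | p.length = l}

def G : SimpleGraph (Fin 6) where
  Adj u v := v - u = 2 ∨ v - u = 3 ∨ v - u = 4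
  symm := ⟨by decide⟩
  loopless := ⟨by decide⟩

instance : DecidableRel G.Adj := fun u v =>
  inferInstanceAs (Decidable (v - u = 2 ∨ v - u = 3 ∨ v - u = 4))

def P : Matrix (Fin 6) (Fin 6) ℝ :=
  !![1, 1, 1, 0, 1, 0; 1, -1, 0, 1, 0, 1; 1, 1, -1, -1, -1, 1; 1, -1, 1, 0, -1, 0;
     1, 1, 0, 1, 0, -1; 1, -1, -1, -1, 1, -1]
noncomputable def Q : Matrix (Fin 6) (Fin 6) ℝ := (1 / 6 : ℝ) •
  !![1, 1, 1, 1, 1, 1; 1, -1, 1, -1, 1, -1; 2, -1, -1, 2, -1, -1; -1, 2, -1, -1, 2, -1;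
     2, 1, -1, -2, -1, 1; 1, 2, 1, -1, -2, -1]
def D : Fin 6 → ℝ := ![3, 1, 0, 0, -2, -2]

lemma adj_eq : G.adjMatrix ℝ = !![0, 0, 1, 1, 1, 0; 0, 0, 0, 1, 1, 1; 1, 0, 0, 0, 1, 1;
    1, 1, 0, 0, 0, 1; 1, 1, 1, 0, 0, 0; 0, 1, 1, 1, 0, 0] := by
  ext i j
  rw [SimpleGraph.adjMatrix_apply]
  fin_cases i <;> fin_cases j <;> simp [G] <;> decide

lemma QP : Q * P = 1 := by
  ext i j
  fin_cases i <;> fin_cases j <;> simp [P, Q, Matrix.mul_apply, Fin.sum_univ_succ] <;> norm_num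

lemma APQ : G.adjMatrix ℝ = P * (Matrix.diagonal D * Q) := by
  rw [adj_eq]
  ext i j
  fin_cases i <;> fin_cases j <;>
    simp [P, Q, D, Matrix.mul_apply, Fin.sum_univ_succ, Matrix.diagonal] <;> norm_num

lemma eig_G : eig G = {3, 1, 0, 0, -2, -2} := by
  unfold eig
  rw [APQ, Matrix.charpoly_mul_comm, Matrix.mul_assoc, QP, Matrix.mul_one,
    Matrix.charpoly_diagonal]
  have : (∏ i, (X - C (D i))) = (({3, 1, 0, 0, -2, -2} : Multiset ℝ).map fun a => X - C a).prod := by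
    simp [Fin.prod_univ_succ, D]
  rw [this, roots_multiset_prod_X_sub_C]

lemma toF : (eig G).toFinset = {3, 1, 0, -2} := by
  rw [eig_G]; ext x; simp

lemma phi_G (μ : ℝ) : phi G μ = (if (3 : ℝ) = μ then 1 else μ - 3) * ((if (1 : ℝ) = μ then 1 else μ - 1) *
    ((if (0 : ℝ) = μ then 1 else μ - 0) * (if (-2 : ℝ) = μ then 1 else μ - -2))) := by
  unfold phi
  rw [toF, ← Finset.filter_ne', Finset.prod_filter, Finset.prod_insert (by norm_num),
    Finset.prod_insert (by norm_num), Finset.prod_pair (by norm_num)]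
  simp only [ne_eq, ite_not]

lemma pd_G : pd G 3 = 6 / 39 := by
  unfold pd
  rw [toF, Finset.sum_insert (by norm_num), Finset.sum_insert (by norm_num),
    Finset.sum_pair (by norm_num), eig_G]
  simp only [phi_G]
  norm_num [Multiset.count_cons, Multiset.insert_eq_cons, Multiset.count_singleton]

lemma two_step : ∀ u v : Fin 6, u = v ∨ G.Adj u v ∨ ∃ w, G.Adj u w ∧ G.Adj w v := by decide

lemma conn : G.Connected := by
  refine ⟨fun u v => ?_⟩
  rcases two_step u v with rfl | h | ⟨w, h1, h2⟩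
  · rfl
  · exact h.reachable
  · exact h1.reachable.trans h2.reachable

lemma dist_le (u v : Fin 6) : G.dist u v ≤ 2 := by
  rcases two_step u v with rfl | h | ⟨w, h1, h2⟩
  · simp
  · rw [SimpleGraph.dist_eq_one_iff_adj.2 h]; omega
  · simpa using SimpleGraph.dist_le (SimpleGraph.Walk.cons h1 (SimpleGraph.Walk.cons h2 .nil))

lemma dist_two (u v : Fin 6) (h : u ≠ v) (h' : ¬ G.Adj u v) : G.dist u v = 2 := by
  have h1 := dist_le u v
  have h2 : G.dist u v ≠ 0 := fun h0 => h (conn.dist_eq_zero_iff.1 h0)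
  have h3 : G.dist u v ≠ 1 := fun h0 => h' (SimpleGraph.dist_eq_one_iff_adj.1 h0)
  omega

lemma pow_shift (l : ℕ) (c : Fin 6) : ∀ x y : Fin 6,
    (G.adjMatrix ℕ ^ l) (x + c) (y + c) = (G.adjMatrix ℕ ^ l) x y := by
  induction l with
  | zero => intro x y; simp [Matrix.one_apply]
  | succ l ih =>
    intro x y
    rw [pow_succ, Matrix.mul_apply, Matrix.mul_apply, ← Equiv.sum_comp (Equiv.addRight c)]
    refine Finset.sum_congr rfl fun z _ => ?_
    rw [Equiv.coe_addRight, ih]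
    congr 1
    simp [SimpleGraph.adjMatrix_apply, G]

theorem result : ∃ (V : Type) (_ : Fintype V) (_ : DecidableEq V) (Γ : SimpleGraph V)
    (_ : DecidableRel Γ.Adj) (k D : ℕ), Γ.Connected ∧ Γ.IsRegularOfDegree k ∧ WalkRegular Γ ∧
    IsGreatest (Set.range fun p : V × V => Γ.dist p.1 p.2) D ∧
    D < (eig Γ).toFinset.card - 1 ∧
    ∃ x : V, pd Γ k < (Finset.univ.filter fun y => Γ.dist x y = D).card := by
  refine ⟨Fin 6, inferInstance, inferInstance, G, inferInstance, 3, 2, conn, ?_, ?_, ⟨⟨(0, 1),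
    dist_two 0 1 (by decide) (by decide)⟩, ?_⟩, ?_, 0, ?_⟩
  · unfold SimpleGraph.IsRegularOfDegree; decide
  · intro l x y
    have h1 := SimpleGraph.adjMatrix_pow_apply_eq_card_walk (α := ℕ) (G := G) l x x
    have h2 := SimpleGraph.adjMatrix_pow_apply_eq_card_walk (α := ℕ) (G := G) l y y
    have h3 := pow_shift l (y - x) x x
    rw [add_sub_cancel, h1, h2] at h3
    exact_mod_cast h3.symm
  · rintro _ ⟨p, rfl⟩; exact dist_le _ _
  · rw [toF, Finset.card_insert_of_notMem (by norm_num), Finset.card_insert_of_notMem (by norm_num),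
      Finset.card_pair (by norm_num)]
    norm_num
  · have : 0 < (Finset.univ.filter fun y => G.dist 0 y = 2).card :=
      Finset.card_pos.2 ⟨1, by simp [dist_two 0 1 (by decide) (by decide)]⟩
    have h : (1 : ℝ) ≤ (Finset.univ.filter fun y => G.dist 0 y = 2).card := by exact_mod_cast this
    have := pd_G
    push_cast
    linarith

end Pool.Agent.Results.MP_87d29b_co.Counter
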